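import Pool.Agent.H72.Pu4

namespace Pool.Agent.Results.MP_e13726_nt.Fails

open H72Pu

/-- `R_n = 2 n^{5/2} log n / S_n` -/
noncomputable def R (n : ℕ) : ℝ := 2 * (n : ℝ) ^ (5 / 2 : ℝ) * Real.log n / (S n : ℝ)

theorem log_lo : (15.2464 : ℝ) ≤ Real.log 4182708 := by
  have h1 : Real.log (4182708 : ℝ) = 22 * Real.log 2 + Real.log (4182708 / 4194304) := by
    rw [Real.log_div (by norm_num) (by norm_num), show (4194304 : ℝ) = 2 ^ 22 by norm_num,
      Real.log_pow]
    push_cast
    ring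
  have h2 := Real.one_sub_inv_le_log_of_pos (x := (4182708 / 4194304 : ℝ)) (by norm_num)
  have h3 := Real.log_two_gt_d9
  rw [h1]
  norm_num at h2 h3 ⊢
  linarith

theorem log_hi : Real.log 262707 ≤ (12.4788 : ℝ) := by
  have h1 : Real.log (262707 : ℝ) = 18 * Real.log 2 + Real.log (262707 / 262144) := by
    rw [Real.log_div (by norm_num) (by norm_num), show (262144 : ℝ) = 2 ^ 18 by norm_num,
      Real.log_pow]
    push_cast
    ring
  have h2 := Real.log_le_sub_one_of_pos (x := (262707 / 262144 : ℝ)) (by norm_num)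
  have h3 := Real.log_two_lt_d9
  rw [h1]
  norm_num at h2 h3 ⊢
  linarith

theorem key : (262707 : ℝ) * 12.4788 ≤ R 4182708 ^ 2 := by
  have e : R 4182708 ^ 2 =
      4 * (4182708 : ℝ) ^ 5 * Real.log 4182708 ^ 2 / (602544936550867 : ℝ) ^ 2 := by
    unfold R
    rw [fin.1, div_pow, mul_pow, mul_pow, ← Real.rpow_natCast ((4182708 : ℕ) ^ (5 / 2 : ℝ) : ℝ),
      ← Real.rpow_mul (by positivity)]
    norm_num
  rw [e, le_div_iff₀ (by positivity)]
  have h1 : (15.2464 : ℝ) ^ 2 ≤ Real.log 4182708 ^ 2 := pow_le_pow_left₀ (by norm_num) log_lo 2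
  refine le_trans ?_ (mul_le_mul_of_nonneg_left h1 (by positivity))
  norm_num

theorem result : ∃ n : ℕ, 4000000 ≤ n ∧ (∃ x : ℝ, 1 < x ∧ x * Real.log x = R n ^ 2) ∧
    ∀ x : ℝ, 1 < x → x * Real.log x = R n ^ 2 → (piS n : ℤ) < ⌊x⌋ := by
  refine ⟨4182708, by norm_num, ?_, fun x h1 h2 => ?_⟩
  · have hk := key
    generalize R 4182708 ^ 2 = t at hk
    have ht : (3 : ℝ) ≤ t := le_trans (by norm_num) hk
    have hc : ContinuousOn (fun x : ℝ => x * Real.log x) (Set.Icc 1 t) :=
      Real.continuous_mul_log.continuousOn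
    have hl : 1 ≤ Real.log t := by
      rw [Real.le_log_iff_exp_le (by linarith)]
      have := Real.exp_one_lt_d9
      linarith
    obtain ⟨x, hx, he⟩ := intermediate_value_Icc (by linarith) hc
      (show t ∈ Set.Icc ((1 : ℝ) * Real.log 1) (t * Real.log t) from
        ⟨by simp; linarith, by nlinarith⟩)
    refine ⟨x, lt_of_le_of_ne hx.1 ?_, he⟩
    rintro rfl
    simp at he
    linarith
  · have h3 : (262707 : ℝ) ≤ x := by
      by_contra hc
      push Not at hc
      have a1 : Real.log x ≤ 12.4788 := (Real.log_le_log (by linarith) hc.le).trans log_hi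
      have a2 : 0 < Real.log x := Real.log_pos h1
      have a3 := key
      nlinarith
    have h4 : (262707 : ℤ) ≤ ⌊x⌋ := Int.le_floor.2 (by exact_mod_cast h3)
    have h5 := fin.2
    omega

end Pool.Agent.Results.MP_e13726_nt.Fails
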